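import Mathlib
import Pool.Prelude.Def_F_c31e40fa
import Pool.Agent.V1186.CN.Siz2

/-!
# The sizes of the hyperbolic components with the centres closest to a parameter with a Lyapunov
exponent

Let `c₀` be a parameter of the Multibrot set `M_d` whose critical value has the Lyapunov exponent
`χ > 0` (this is so at the landing point of almost every parameter ray, with `χ = log d`). For every
large `n` there is a superattracting parameter `c'` of exact period `n` or `n + 1` at distance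
`exp (-(χ + o(1)) n)` from `c₀`. All such parameters have the same size: the largest disc about `c'`
which consists of parameters with an attracting cycle has the radius
`exp (-(d / (d - 1)) χ n + o(n))`, and the area of the filled Julia set is
`exp (-(2 / (d - 1)) χ n + o(n))` on a disc about `c'` of this size.
-/

set_option autoImplicit false

open Set Filter Metric MeasureTheory Topology

namespace Pool.Agent.Results.MP_af9036_an.ComponentSizes

open Pool.Agent.H713R2 (IsExteriorMap)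

/-- The polynomial `z ^ d + c`. -/
def f (d : ℕ) (c : ℂ) : ℂ → ℂ := fun z => z ^ d + c

/-- The Multibrot set `M_d`. -/
def M (d : ℕ) : Set ℂ := N62a1eb23.multibrotSet d

/-- The parameters `c` of the Multibrot set for which `z ^ d + c` has an attracting cycle. -/
def hyp (d : ℕ) : Set ℂ :=
  {c | c ∈ M d ∧ ∃ (m : ℕ) (z : ℂ), N62a1eb23.IsAttractingCycle (f d c) m z}

/-- The filled Julia set of `z ^ d + c`. -/
def filledJulia (d : ℕ) (c : ℂ) : Set ℂ :=
  {z | ¬ Tendsto (fun n => (f d c)^[n] z) atTop (Bornology.cobounded ℂ)}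

/-- The radius of the largest open disc about `c` of parameters with an attracting cycle: the distance
from `c` to the complement of `hyp d`. -/
noncomputable def size (d : ℕ) (c : ℂ) : ℝ := infDist c (hyp d)ᶜ

/-- The distance from `c` to the complement of the Multibrot set. -/
noncomputable def depth (d : ℕ) (c : ℂ) : ℝ := infDist c (M d)ᶜ

/-- The area of the filled Julia set of `z ^ d + c`. -/
noncomputable def area (d : ℕ) (c : ℂ) : ℝ := (volume (filledJulia d c)).toReal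

/-- `c₀` lies in the Multibrot set and the critical value `c₀` has the Lyapunov exponent `χ > 0`. -/
def Lyapunov (d : ℕ) (χ : ℝ) (c₀ : ℂ) : Prop :=
  0 < χ ∧ c₀ ∈ M d ∧
    Tendsto (fun n : ℕ => Real.log ‖deriv ((f d c₀)^[n]) c₀‖ / n) atTop (𝓝 χ)

/-- `x = exp (-(a ± ε) n)` -/
def Within (x a ε : ℝ) (n : ℕ) : Prop :=
  Real.exp (-(a + ε) * n) ≤ x ∧ x ≤ Real.exp (-(a - ε) * n)

theorem three_mem (d : ℕ) (hd : 2 ≤ d) : (3 : ℂ) ∈ (M d)ᶜ := by
  intro h
  have h1 := Pool.Agent.TH279.MD.norm_le_two hd h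
  norm_num at h1

theorem compl_sub (d : ℕ) : (M d)ᶜ ⊆ (hyp d)ᶜ := fun _ hc h => hc h.1

theorem size_le_depth (d : ℕ) (hd : 2 ≤ d) (c : ℂ) : size d c ≤ depth d c :=
  infDist_le_infDist_of_subset (compl_sub d) ⟨3, three_mem d hd⟩

/-- all centres at a distance `exp (-(χ + o(1)) n)` -/
theorem all_centres {d : ℕ} (hd : 2 ≤ d) {χ : ℝ} {c₀ : ℂ} (h : Lyapunov d χ c₀) {ε : ℝ}
    (hε : 0 < ε) : ∃ δ : ℝ, 0 < δ ∧ δ < χ ∧ ∀ᶠ n : ℕ in atTop, ∀ c' : ℂ,
      Function.IsPeriodicPt (f d c') n 0 → ‖c' - c₀‖ ≤ Real.exp (-(χ - δ) * n) →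
      Function.minimalPeriod (f d c') 0 = n ∧
      Within ‖c' - c₀‖ χ ε n ∧
      Within (size d c') (χ * (d / (d - 1))) ε n ∧
      Within (depth d c') (χ * (d / (d - 1))) ε n ∧
      ∀ c ∈ ball c' (Real.exp (-(χ * (d / (d - 1)) + ε) * n)), c ∈ M d ∧
        (∃ z, N62a1eb23.IsAttractingCycle (f d c) n z) ∧
        Within (area d c) (χ * (2 / (d - 1))) ε n := by
  have hdR : (2 : ℝ) ≤ d := by exact_mod_cast hd
  have hd1 : 0 < (d : ℝ) - 1 := by linarith
  have hL : Pool.Agent.Y298.CA.Lyap d χ c₀ := h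
  have hχ : 0 < χ := h.1
  have S := Pool.Agent.Y298.CA.scal_all hd hL
  set E : ℝ := (d : ℝ) / (d - 1) with hE
  have hE0 : 0 < E := by positivity
  have hE1 : 1 ≤ E := by rw [hE, le_div_iff₀ hd1]; linarith
  -- the area
  have hjup : ∀ σ : ℝ, 0 ≤ σ → σ < 2 / ((d : ℝ) - 1) → ∃ K : ℝ, 0 < K ∧ ∀ c ∈ M d, c ≠ c₀ →
      volume (filledJulia d c) ≤ ENNReal.ofReal (K * ‖c - c₀‖ ^ σ) := by
    intro σ hσ0 hσ1
    set t : ℝ := σ * (d - 1) / 2 with ht
    have ht0 : 0 ≤ t := by positivity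
    have ht1 : t < 1 := by
      rw [lt_div_iff₀ hd1] at hσ1
      rw [ht]
      linarith
    have hσt : σ = 2 * t / ((d : ℝ) - 1) := by
      rw [ht]
      field_simp
    have hb0 : 0 < (1 - t) / 2 := by linarith
    have hb1 : t * (1 + (1 - t) / 2) < 1 := by nlinarith
    obtain ⟨⟨C₁, lam, hc⟩, -⟩ := Pool.Agent.Y674.CA.lya d χ c₀ hd hL
    obtain ⟨C₂, hC₂, hrec⟩ := Pool.Agent.Y298.CA.rec_of_lya Pool.Agent.Y674.CA.lya hd hL hb0
    obtain ⟨C, hC, H⟩ := Pool.Agent.Y298.SH.CD.upper hd C₁ lam hC₂ hb0.le ht0 hb1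
    refine ⟨C, hC, fun c hcM hcc => ?_⟩
    rw [hσt]
    exact (H c₀ hc hrec c hcM hcc).1
  -- the distance to the complement
  have hdep : ∀ σ : ℝ, 0 ≤ σ → σ < E → ∃ K : ℝ, 0 < K ∧ ∀ c ∈ M d, c ≠ c₀ →
      ENNReal.ofReal (depth d c) ≤ ENNReal.ofReal (K * ‖c - c₀‖ ^ σ) := by
    intro σ hσ0 hσ
    obtain ⟨K, hK, H⟩ := S.dens σ hσ0 hσ
    refine ⟨K, hK, fun c hc hcc => ENNReal.ofReal_le_ofReal ?_⟩
    obtain ⟨-, c', h2, h3⟩ := H c hc hcc
    refine (infDist_le_dist_of_mem (x := c) (show c' ∈ (M d)ᶜ from h3)).trans ?_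
    rw [dist_eq_norm, norm_sub_rev]
    exact h2
  obtain ⟨δ₁, hδ₁, hδ₁χ, H₁⟩ := Pool.Agent.V1186.CN.siz_low hd hL (ε := ε / 4) (by positivity)
  obtain ⟨δ₂, hδ₂, hδ₂χ, H₂⟩ := Pool.Agent.V1186.CN.pow_small (c₀ := c₀) hχ
    (by positivity : 0 < 2 / ((d : ℝ) - 1)) hε (F := fun c => volume (filledJulia d c)) (S := M d)
    hjup
  obtain ⟨δ₃, hδ₃, hδ₃χ, H₃⟩ := Pool.Agent.V1186.CN.pow_small (c₀ := c₀) hχ hE0 hε
    (F := fun c => ENNReal.ofReal (depth d c)) (S := M d) hdep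
  set δ : ℝ := min (min δ₁ δ₂) (min δ₃ (min ε (χ / 4))) with hδ
  have hδa : δ ≤ δ₁ := (min_le_left _ _).trans (min_le_left _ _)
  have hδb : δ ≤ δ₂ := (min_le_left _ _).trans (min_le_right _ _)
  have hδc : δ ≤ δ₃ := (min_le_right _ _).trans (min_le_left _ _)
  have hδd : δ ≤ ε := (min_le_right _ _).trans ((min_le_right _ _).trans (min_le_left _ _))
  have hδe : δ ≤ χ / 4 := (min_le_right _ _).trans ((min_le_right _ _).trans (min_le_right _ _))
  have hδ0 : 0 < δ := lt_min (lt_min hδ₁ hδ₂) (lt_min hδ₃ (lt_min hε (by positivity)))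
  refine ⟨δ, hδ0, by linarith, ?_⟩
  filter_upwards [H₁, H₂, H₃, Pool.Agent.V1186.CN.siz_dist hd hL hε,
    Pool.Agent.V1186.CN.siz_per hd hL, eventually_ge_atTop 1,
    Pool.Agent.V1186.CN.siz_dist hd hL (ε := ε / 4) (by positivity)]
    with n K₁ K₂ K₃ K₄ K₅ hn K₆ c' hper hcc
  have hP : Pool.Agent.H712R2.P d n c' = 0 := hper
  have hmono : ∀ a : ℝ, δ ≤ a → ‖c' - c₀‖ ≤ Real.exp (-(χ - a) * n) := by
    intro a ha
    refine hcc.trans (Real.exp_le_exp.mpr ?_)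
    have : (0 : ℝ) ≤ n := by positivity
    nlinarith
  have hmem := Pool.Agent.V1186.CN.centre_mem hd hn hP
  have hne := Pool.Agent.V1186.CN.centre_ne hd hL hn hP
  have hn0 : (0 : ℝ) ≤ n := by positivity
  -- the disc
  have hdisc : ∀ c ∈ ball c' (Real.exp (-(χ * E + ε) * n)),
      closedBall (0 : ℂ) (Real.exp (-(χ * (1 / ((d : ℝ) - 1)) + ε / 4) * n)) ⊆ filledJulia d c ∧
        ∃ z : ℂ, N62a1eb23.IsAttractingCycle (f d c) n z := by
    intro c hc
    refine K₁ c' hP (hmono δ₁ hδa) c (ball_subset_ball (Real.exp_le_exp.mpr ?_) hc)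
    nlinarith
  have hdiscM : ∀ c ∈ ball c' (Real.exp (-(χ * E + ε) * n)), c ∈ M d := by
    intro c hc
    have h1 := (hdisc c hc).1 (mem_closedBall_self (Real.exp_pos _).le)
    exact h1
  have hsize : Real.exp (-(χ * E + ε) * n) ≤ size d c' := by
    unfold size
    rw [le_infDist ⟨3, compl_sub d (three_mem d hd)⟩]
    intro y hy
    by_contra hcon
    rw [not_le, dist_comm] at hcon
    obtain ⟨z, hz⟩ := (hdisc y (mem_ball.mpr hcon)).2
    exact hy ⟨hdiscM y (mem_ball.mpr hcon), n, z, hz⟩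
  have hdepth : depth d c' ≤ Real.exp (-(χ * E - ε) * n) := by
    have h1 := K₃ c' hmem hne ((hmono δ₃ hδc).trans (by linarith [Real.exp_pos (-(χ - δ₃) * (n : ℝ))]))
    rwa [ENNReal.ofReal_le_ofReal_iff (Real.exp_pos _).le] at h1
  have hsd := size_le_depth d hd c'
  refine ⟨K₅ c' hP (hmono (χ / 4) hδe), ⟨K₄ c' hP, hmono ε hδd⟩, ⟨hsize, hsd.trans hdepth⟩,
    ⟨hsize.trans hsd, hdepth⟩, fun c hc => ?_⟩
  obtain ⟨h1, h2⟩ := hdisc c hc
  have hcM := hdiscM c hc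
  -- the distance from `c` to `c₀`
  have hcc' : ‖c - c'‖ < Real.exp (-(χ * E + ε) * n) := by rwa [mem_ball, dist_eq_norm] at hc
  have hle1 : Real.exp (-(χ * E + ε) * n) ≤ Real.exp (-(χ + ε) * n) := by
    apply Real.exp_le_exp.mpr
    have : χ ≤ χ * E := by nlinarith
    nlinarith
  have hcne : c ≠ c₀ := by
    rintro rfl
    rw [norm_sub_rev] at hcc'
    have := K₄ c' hP
    linarith
  have hle2 : Real.exp (-(χ + ε) * n) ≤ Real.exp (-(χ - δ₂) * n) := by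
    apply Real.exp_le_exp.mpr
    nlinarith
  have hcd : ‖c - c₀‖ ≤ 2 * Real.exp (-(χ - δ₂) * n) := by
    have h3 := hmono δ₂ hδb
    calc ‖c - c₀‖ = ‖(c - c') + (c' - c₀)‖ := by congr 1; ring
      _ ≤ ‖c - c'‖ + ‖c' - c₀‖ := norm_add_le _ _
      _ ≤ _ := by linarith
  have hup := K₂ c hcM hcne hcd
  refine ⟨hcM, h2, ?_, ENNReal.toReal_le_of_le_ofReal (Real.exp_pos _).le hup⟩
  have hfin : volume (filledJulia d c) ≠ ⊤ := ne_top_of_le_ne_top ENNReal.ofReal_ne_top hup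
  have h4 := ENNReal.toReal_mono hfin (measure_mono h1)
  refine le_trans ?_ h4
  rw [Pool.Agent.Y298.CA.vol_cb' _ (Real.exp_pos _).le, ENNReal.toReal_ofReal (by positivity)]
  have h5 : Real.exp (-(χ * (1 / ((d : ℝ) - 1)) + ε / 4) * n) ^ 2 =
      Real.exp (-(χ * (2 / ((d : ℝ) - 1)) + ε / 2) * n) := by
    rw [← Real.exp_nat_mul]
    congr 1
    push_cast
    ring
  rw [h5]
  have h6 : Real.exp (-(χ * (2 / ((d : ℝ) - 1)) + ε) * n) ≤
      Real.exp (-(χ * (2 / ((d : ℝ) - 1)) + ε / 2) * n) := by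
    apply Real.exp_le_exp.mpr
    nlinarith
  have h7 := Real.pi_gt_three
  have h8 := Real.exp_pos (-(χ * (2 / ((d : ℝ) - 1)) + ε / 2) * n)
  nlinarith

/-- **The sizes of the hyperbolic components near a parameter with a Lyapunov exponent.** -/
theorem result (d : ℕ) (hd : 2 ≤ d) :
    (∀ (χ : ℝ) (c₀ : ℂ), Lyapunov d χ c₀ →
      -- (A) all superattracting parameters of period `n` at the distance `exp (-(χ - δ) n)`
      (∀ ε : ℝ, 0 < ε → ∃ δ : ℝ, 0 < δ ∧ δ < χ ∧ ∀ᶠ n : ℕ in atTop, ∀ c' : ℂ,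
        Function.IsPeriodicPt (f d c') n 0 → ‖c' - c₀‖ ≤ Real.exp (-(χ - δ) * n) →
        Function.minimalPeriod (f d c') 0 = n ∧
        Within ‖c' - c₀‖ χ ε n ∧
        Within (size d c') (χ * (d / (d - 1))) ε n ∧
        Within (depth d c') (χ * (d / (d - 1))) ε n ∧
        ∀ c ∈ ball c' (Real.exp (-(χ * (d / (d - 1)) + ε) * n)), c ∈ M d ∧
          (∃ z, N62a1eb23.IsAttractingCycle (f d c) n z) ∧
          Within (area d c) (χ * (2 / (d - 1))) ε n) ∧
      -- (B) there are such parameters of period `n` or `n + 1` for every large `n`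
      ∃ (c : ℕ → ℂ) (p : ℕ → ℕ), (∀ n, p n = n ∨ p n = n + 1) ∧
        (∀ᶠ n : ℕ in atTop, Function.minimalPeriod (f d (c n)) 0 = p n) ∧
        Tendsto (fun n : ℕ => -Real.log ‖c n - c₀‖ / p n) atTop (𝓝 χ) ∧
        Tendsto (fun n : ℕ => -Real.log (size d (c n)) / p n) atTop (𝓝 (χ * (d / (d - 1)))) ∧
        Tendsto (fun n : ℕ => -Real.log (depth d (c n)) / p n) atTop (𝓝 (χ * (d / (d - 1)))) ∧
        Tendsto (fun n : ℕ => -Real.log (area d (c n)) / p n) atTop (𝓝 (χ * (2 / (d - 1))))) ∧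
    -- (C) almost every ray
    (∃ ψ : ℂ → ℂ, IsExteriorMap (M d) ψ) ∧
    ∀ ψ : ℂ → ℂ, IsExteriorMap (M d) ψ → ∀ᵐ θ : ℝ, ∃ c₀ ∈ frontier (M d),
      Tendsto (fun r : ℝ => ψ (r * Complex.exp (θ * Complex.I))) (𝓝[>] 1) (𝓝 c₀) ∧
      Lyapunov d (Real.log d) c₀ := by
  refine ⟨fun χ c₀ h => ⟨fun ε hε => all_centres hd h hε, ?_⟩, ?_, ?_⟩
  · have hL : Pool.Agent.Y298.CA.Lyap d χ c₀ := h
    obtain ⟨c, p, hp, hc⟩ := Pool.Agent.V1186.CN.seq_ex hd hL
    have hpt : Tendsto p atTop atTop := by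
      refine tendsto_atTop_mono (fun n => ?_) tendsto_id
      show n ≤ p n
      rcases hp n with h1 | h1 <;> omega
    have hpos : ∀ ε : ℝ, 0 < ε → ∃ δ : ℝ, 0 < δ ∧ ∀ᶠ m : ℕ in atTop, ∀ c' : ℂ,
        Pool.Agent.H712R2.P d m c' = 0 → ‖c' - c₀‖ ≤ Real.exp (-(χ - δ) * m) →
        Function.minimalPeriod (f d c') 0 = m ∧
        Within ‖c' - c₀‖ χ ε m ∧
        Within (size d c') (χ * (d / (d - 1))) ε m ∧
        Within (depth d c') (χ * (d / (d - 1))) ε m ∧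
        Within (area d c') (χ * (2 / (d - 1))) ε m := by
      intro ε hε
      obtain ⟨δ, hδ, -, H⟩ := all_centres hd h hε
      refine ⟨δ, hδ, ?_⟩
      filter_upwards [H] with m hm c' hc' hcc
      obtain ⟨h1, h2, h3, h4, h5⟩ := hm c' hc' hcc
      exact ⟨h1, h2, h3, h4, (h5 c' (mem_ball_self (Real.exp_pos _))).2.2⟩
    refine ⟨c, p, hp, ?_, ?_, ?_, ?_, ?_⟩
    · obtain ⟨δ, hδ, H⟩ := hpos 1 one_pos
      filter_upwards [hpt.eventually H, hc δ hδ] with n h1 ⟨h2, h3⟩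
      exact (h1 (c n) h2 h3).1
    · refine Pool.Agent.V1186.CN.lim_seq (F := fun c' => ‖c' - c₀‖) (fun ε hε => ?_) hpt hc
      obtain ⟨δ, hδ, H⟩ := hpos ε hε
      refine ⟨δ, hδ, ?_⟩
      filter_upwards [H] with m hm c' hc' hcc
      exact (hm c' hc' hcc).2.1
    · refine Pool.Agent.V1186.CN.lim_seq (F := size d) (fun ε hε => ?_) hpt hc
      obtain ⟨δ, hδ, H⟩ := hpos ε hε
      refine ⟨δ, hδ, ?_⟩
      filter_upwards [H] with m hm c' hc' hcc
      exact (hm c' hc' hcc).2.2.1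
    · refine Pool.Agent.V1186.CN.lim_seq (F := depth d) (fun ε hε => ?_) hpt hc
      obtain ⟨δ, hδ, H⟩ := hpos ε hε
      refine ⟨δ, hδ, ?_⟩
      filter_upwards [H] with m hm c' hc' hcc
      exact (hm c' hc' hcc).2.2.2.1
    · refine Pool.Agent.V1186.CN.lim_seq (F := area d) (fun ε hε => ?_) hpt hc
      obtain ⟨δ, hδ, H⟩ := hpos ε hε
      refine ⟨δ, hδ, ?_⟩
      filter_upwards [H] with m hm c' hc' hcc
      exact (hm c' hc' hcc).2.2.2.2
  · obtain ⟨β, hβ⟩ := Pool.Agent.H713R2.exists_beta (d := d) hd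
    exact ⟨_, Pool.Agent.H713R2.exteriorMap_of_beta hβ⟩
  · obtain ⟨β, hβ⟩ := Pool.Agent.H713R2.exists_beta (d := d) hd
    intro ψ hψ
    filter_upwards [Pool.Agent.Y272.TY.ae_neg' (Pool.Agent.Y272.TY.typical_all hd hβ)] with θ hθ
    obtain ⟨c₀, A, R, h⟩ := hθ
    exact ⟨c₀, h.frontier hd hβ, h.tendsto_psi hβ hψ, Pool.Agent.Y298.CA.lyap_of_typ hd hβ h⟩

end Pool.Agent.Results.MP_af9036_an.ComponentSizes
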