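import Mathlib
import Pool.Prelude.Def_F_c31e40fa
import Pool.Agent.V1186.CN.Cyc7

/-!
# Deep recurrence of the hyperbolic parameters, and of all interior parameters, near typical parameters

Let `c₀` be a parameter of the Multibrot set `M_d` whose critical value has the Lyapunov exponent
`χ > 0`; this is so at the landing point of almost every parameter ray, with `χ = log d`. Fix
`0 < ε < 1`, let `c ≠ c₀` be close to `c₀`, and put `r = |c - c₀|` and
`T = r ^ ((1 - ε) / (d - 1))`. We prove: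

* the derivatives of the iterates of `z ^ d + c` grow exponentially, at a rate which depends on `c₀`
  and `ε` only, along every bounded orbit as long as it does not enter the disc `|z| < T`;
* every cycle of `z ^ d + c`, of any period, which does not meet this disc is uniformly repelling: in
  particular every attracting and every neutral cycle has a point in the disc;
* if `c ∈ M_d` and the orbit of the critical point does not return to the disc, then `c` satisfies the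
  Collet-Eckmann condition;
* for every `c` in the INTERIOR of `M_d` (hyperbolic or not) the orbit of the critical point returns to
  the disc;
* if `c ∈ M_d`, then the orbit of every point in the interior of the filled Julia set enters the disc.
-/

set_option autoImplicit false

open Set Filter Metric MeasureTheory Topology

namespace Pool.Agent.Results.MP_af9036_an.DeepRecurrence

open Pool.Agent.H713R2 (IsExteriorMap)

/-- The polynomial `z ^ d + c`. -/
def f (d : ℕ) (c : ℂ) : ℂ → ℂ := fun z => z ^ d + c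

/-- The Multibrot set `M_d`. -/
def M (d : ℕ) : Set ℂ := N62a1eb23.multibrotSet d

/-- The filled Julia set of `z ^ d + c`. -/
def filledJulia (d : ℕ) (c : ℂ) : Set ℂ :=
  {z | ¬ Tendsto (fun n => (f d c)^[n] z) atTop (Bornology.cobounded ℂ)}

/-- The modulus of the derivative of the `n`-th iterate of `z ^ d + c` at `z`. -/
noncomputable def der (d : ℕ) (c z : ℂ) (n : ℕ) : ℝ := ‖deriv ((f d c)^[n]) z‖

/-- The radius `r ^ ((1 - ε) / (d - 1))`. -/
noncomputable def rad (d : ℕ) (ε r : ℝ) : ℝ := r ^ ((1 - ε) / ((d : ℝ) - 1))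

/-- `c₀` lies in the Multibrot set and the critical value `c₀` has the Lyapunov exponent `χ > 0`. -/
def Lyapunov (d : ℕ) (χ : ℝ) (c₀ : ℂ) : Prop :=
  0 < χ ∧ c₀ ∈ M d ∧
    Tendsto (fun n : ℕ => Real.log ‖deriv ((f d c₀)^[n]) c₀‖ / n) atTop (𝓝 χ)

theorem rad_pow {d : ℕ} (hd : 2 ≤ d) {ε r x : ℝ} (hr : 0 < r) (h : rad d ε r ≤ x) :
    r ^ (1 - ε) ≤ x ^ (d - 1) := by
  have hdR : (2 : ℝ) ≤ d := by exact_mod_cast hd
  have hd1 : 0 < (d : ℝ) - 1 := by linarith
  have h1 : rad d ε r ^ (d - 1) = r ^ (1 - ε) := by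
    unfold rad
    rw [← Real.rpow_natCast, ← Real.rpow_mul hr.le, Nat.cast_sub (by omega), Nat.cast_one]
    congr 1
    field_simp
  rw [← h1]
  exact pow_le_pow_left₀ (Real.rpow_nonneg hr.le _) h _

/-- points of the filled Julia set have orbits in the disc of radius three -/
theorem bounded {d : ℕ} (hd : 2 ≤ d) {c z : ℂ} (hc : ‖c‖ ≤ 3) (hz : z ∈ filledJulia d c) :
    ∀ i, ‖(f d c)^[i] z‖ ≤ 3 := by
  intro i
  by_contra hcon
  rw [not_le] at hcon
  apply hz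
  set w := (f d c)^[i] z with hw
  have hstep : ∀ x : ℂ, 3 < ‖x‖ → 3 / 2 * ‖x‖ ≤ ‖f d c x‖ := by
    intro x hx
    have h1 : ‖x ^ d‖ ≤ ‖f d c x‖ + ‖c‖ := by
      calc ‖x ^ d‖ = ‖f d c x - c‖ := by
            congr 1
            unfold f
            ring
        _ ≤ _ := norm_sub_le _ _
    have h2 : 3 * ‖x‖ ≤ ‖x ^ d‖ := by
      rw [norm_pow]
      calc 3 * ‖x‖ ≤ ‖x‖ * ‖x‖ := by gcongr
        _ = ‖x‖ ^ 2 := by ring
        _ ≤ ‖x‖ ^ d := pow_le_pow_right₀ (by linarith) hd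
    linarith
  have hgrow : ∀ n : ℕ, (3 / 2 : ℝ) ^ n * ‖w‖ ≤ ‖(f d c)^[n] w‖ ∧ 3 < ‖(f d c)^[n] w‖ := by
    intro n
    induction n with
    | zero => exact ⟨by simp, hcon⟩
    | succ n ih =>
      have h1 := hstep _ ih.2
      rw [Function.iterate_succ_apply']
      refine ⟨?_, by linarith [ih.2]⟩
      calc (3 / 2 : ℝ) ^ (n + 1) * ‖w‖ = 3 / 2 * ((3 / 2 : ℝ) ^ n * ‖w‖) := by ring
        _ ≤ 3 / 2 * ‖(f d c)^[n] w‖ := by linarith [ih.1]
        _ ≤ _ := h1
  have h1 : Tendsto (fun n : ℕ => (f d c)^[n] w) atTop (Bornology.cobounded ℂ) := by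
    rw [← tendsto_norm_atTop_iff_cobounded]
    refine tendsto_atTop_mono (fun n => (hgrow n).1) ?_
    exact (tendsto_pow_atTop_atTop_of_one_lt (by norm_num)).atTop_mul_const (by linarith)
  have h2 : (fun n : ℕ => (f d c)^[n] w) = fun n => (f d c)^[n + i] z := by
    funext n
    rw [hw, ← Function.iterate_add_apply]
  rw [h2] at h1
  exact (tendsto_add_atTop_iff_nat i).1 h1

/-- **Deep recurrence.** -/
theorem main {d : ℕ} (hd : 2 ≤ d) {χ : ℝ} {c₀ : ℂ} (h : Lyapunov d χ c₀) {ε : ℝ} (hε : 0 < ε)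
    (hε1 : ε < 1) : ∃ ν r₀ κ : ℝ, 0 < ν ∧ 0 < r₀ ∧ 0 < κ ∧ ∀ (c : ℂ) (r : ℝ),
      0 < r → r ≤ r₀ → ‖c - c₀‖ ≤ r →
      (∀ z ∈ filledJulia d c, ∀ n : ℕ, (∀ i < n, rad d ε r ≤ ‖(f d c)^[i] z‖) →
        κ * r * Real.exp (ν * n) ≤ der d c z n) ∧
      (∀ (z : ℂ) (p : ℕ), 1 ≤ p → (f d c)^[p] z = z → (∀ i, rad d ε r ≤ ‖(f d c)^[i] z‖) →
        Real.exp (ν * p) ≤ der d c z p) ∧
      (c ∈ M d → (∀ n : ℕ, 1 ≤ n → rad d ε r ≤ ‖(f d c)^[n] 0‖) →
        ∀ n : ℕ, κ * r * Real.exp (ν * n) ≤ der d c c n) ∧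
      (c ∈ interior (M d) → ∃ n : ℕ, 1 ≤ n ∧ ‖(f d c)^[n] 0‖ < rad d ε r) ∧
      (∀ z ∈ interior (filledJulia d c), ∃ n : ℕ, ‖(f d c)^[n] z‖ < rad d ε r) := by
  have hL : Pool.Agent.Y298.CA.Lyap d χ c₀ := h
  have hc2 : ‖c₀‖ ≤ 2 := Pool.Agent.TH279.MD.norm_le_two hd h.2.1
  obtain ⟨ν, r₀, κ, hν, hr₀, hκ, H⟩ := Pool.Agent.V1186.CN.recur hd hL hε hε1
  refine ⟨ν, min r₀ 1, κ, hν, lt_min hr₀ one_pos, hκ, ?_⟩
  intro c r hr hrr hcr
  have hr1 : r ≤ 1 := hrr.trans (min_le_right _ _)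
  have hc3 : ‖c‖ ≤ 3 := by
    calc ‖c‖ = ‖(c - c₀) + c₀‖ := by congr 1; ring
      _ ≤ ‖c - c₀‖ + ‖c₀‖ := norm_add_le _ _
      _ ≤ 3 := by linarith
  have hnear : Pool.Agent.V1186.CN.Near d c₀ (f d c) r := by
    refine ⟨?_, fun w _ => ?_⟩
    · unfold f
      fun_prop
    · show ‖w ^ d + c - (w ^ d + c₀)‖ ≤ r
      rw [add_sub_add_left_eq_sub]
      exact hcr
  have hmu : ∀ (z : ℂ) (n : ℕ), ‖Pool.Agent.V1186.CN.mu (f d c) z n‖ = der d c z n := fun z n =>
    congrArg norm (Pool.Agent.V1186.CN.mu_f d c z n)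
  have H' : ∀ z : ℂ, (∀ i, ‖(f d c)^[i] z‖ ≤ 3) → ∀ n : ℕ,
      (∀ i < n, rad d ε r ≤ ‖(f d c)^[i] z‖) → κ * r * Real.exp (ν * n) ≤ der d c z n := by
    intro z hz n hn
    rw [← hmu]
    exact H (f d c) r hr (hrr.trans (min_le_left _ _)) hnear z hz n fun i hi =>
      rad_pow hd hr (hn i hi)
  have hκr : 0 < κ * r := by positivity
  have hcrit : c ∈ M d → (∀ n : ℕ, 1 ≤ n → rad d ε r ≤ ‖(f d c)^[n] 0‖) →
      ∀ n : ℕ, κ * r * Real.exp (ν * n) ≤ der d c c n := by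
    intro hcM hn n
    have hit : ∀ i : ℕ, (f d c)^[i] c = (f d c)^[i + 1] 0 := by
      intro i
      rw [Function.iterate_succ_apply]
      congr 1
      show c = 0 ^ d + c
      rw [zero_pow (by omega), zero_add]
    refine H' c (fun i => ?_) n fun i _ => ?_
    · rw [hit]
      have h1 := (Pool.Agent.H712R2.mem_multibrot_iff hd c).mp hcM (i + 1)
      exact h1.trans (by norm_num)
    · rw [hit]
      exact hn (i + 1) (by omega)
  refine ⟨fun z hz n hn => H' z (bounded hd hc3 hz) n hn, ?_, hcrit, ?_, ?_⟩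
  · intro z p hp hz hfar
    rw [← hmu]
    refine Pool.Agent.V1186.CN.growthA hp hz hκr fun t => ?_
    rw [hmu]
    exact H' z (Pool.Agent.V1186.CN.cyc_in (fun w hw => Pool.Agent.V1186.CN.esc_uni hd hc3 hw)
      hp hz) t fun i _ => hfar i
  · intro hint
    by_contra hcon
    push Not at hcon
    have h1 := hcrit (interior_subset hint) hcon
    exact Pool.Agent.V1186.CN.cep_not_interior (Pool.Agent.V1186.CN.cep_of_growth hd
      (interior_subset hint) hκr hν fun n => by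
        have h2 := h1 n
        rw [← hmu] at h2
        exact h2) hint
  · intro z hz
    by_contra hcon
    push Not at hcon
    obtain ⟨s, hs, hsub⟩ := Metric.mem_nhds_iff.1 (mem_interior_iff_mem_nhds.1 hz)
    have hb : ∀ w ∈ ball z s, ∀ i, ‖(f d c)^[i] w‖ ≤ 3 := fun w hw => bounded hd hc3 (hsub hw)
    refine Pool.Agent.V1186.CN.exp_unbdd hκr hν (B := 3 / (s / 2)) fun n => ?_
    refine (H' z (hb z (mem_ball_self hs)) n fun i _ => hcon i).trans ?_
    rw [← hmu]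
    exact Pool.Agent.V1186.CN.not_expanded hnear hs hb n

/-- **Deep recurrence near a parameter with a Lyapunov exponent.** -/
theorem result (d : ℕ) (hd : 2 ≤ d) :
    (∀ (χ : ℝ) (c₀ : ℂ), Lyapunov d χ c₀ → ∀ ε : ℝ, 0 < ε → ε < 1 →
      ∃ ν r₀ κ : ℝ, 0 < ν ∧ 0 < r₀ ∧ 0 < κ ∧ ∀ (c : ℂ) (r : ℝ), 0 < r → r ≤ r₀ → ‖c - c₀‖ ≤ r →
        -- (A) expansion along the orbits which stay away from the critical point
        (∀ z ∈ filledJulia d c, ∀ n : ℕ, (∀ i < n, rad d ε r ≤ ‖(f d c)^[i] z‖) →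
          κ * r * Real.exp (ν * n) ≤ der d c z n) ∧
        -- (B) cycles of any period
        (∀ (z : ℂ) (p : ℕ), 1 ≤ p → (f d c)^[p] z = z → (∀ i, rad d ε r ≤ ‖(f d c)^[i] z‖) →
          Real.exp (ν * p) ≤ der d c z p) ∧
        -- (C) the critical value
        (c ∈ M d → (∀ n : ℕ, 1 ≤ n → rad d ε r ≤ ‖(f d c)^[n] 0‖) →
          ∀ n : ℕ, κ * r * Real.exp (ν * n) ≤ der d c c n) ∧
        -- (D) the interior parameters
        (c ∈ interior (M d) → ∃ n : ℕ, 1 ≤ n ∧ ‖(f d c)^[n] 0‖ < rad d ε r) ∧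
        -- (E) the interior of the filled Julia set
        (∀ z ∈ interior (filledJulia d c), ∃ n : ℕ, ‖(f d c)^[n] z‖ < rad d ε r)) ∧
    -- (F) almost every ray
    (∃ ψ : ℂ → ℂ, IsExteriorMap (M d) ψ) ∧
    ∀ ψ : ℂ → ℂ, IsExteriorMap (M d) ψ → ∀ᵐ θ : ℝ, ∃ c₀ ∈ frontier (M d),
      Tendsto (fun r : ℝ => ψ (r * Complex.exp (θ * Complex.I))) (𝓝[>] 1) (𝓝 c₀) ∧
      Lyapunov d (Real.log d) c₀ := by
  refine ⟨fun χ c₀ h ε hε hε1 => main hd h hε hε1, ?_, ?_⟩
  · obtain ⟨β, hβ⟩ := Pool.Agent.H713R2.exists_beta (d := d) hd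
    exact ⟨_, Pool.Agent.H713R2.exteriorMap_of_beta hβ⟩
  · obtain ⟨β, hβ⟩ := Pool.Agent.H713R2.exists_beta (d := d) hd
    intro ψ hψ
    filter_upwards [Pool.Agent.Y272.TY.ae_neg' (Pool.Agent.Y272.TY.typical_all hd hβ)] with θ hθ
    obtain ⟨c₀, A, R, h⟩ := hθ
    exact ⟨c₀, h.frontier hd hβ, h.tendsto_psi hβ hψ, Pool.Agent.Y298.CA.lyap_of_typ hd hβ h⟩

end Pool.Agent.Results.MP_af9036_an.DeepRecurrence
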