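import Mathlib
import Pool.Prelude.Def_F_c31e40fa
import Pool.Agent.Y298.CA.ScaAll
import Pool.Agent.Y298.EX.All

/-!
# The exact scaling of the Multibrot sets at parameters with a Lyapunov exponent

Let `d ≥ 2` and let `c₀` be a parameter of the Multibrot set `M_d` whose critical value has a Lyapunov
exponent (this is so for harmonic-almost every boundary point, with the exponent `log d`). Then, as
`r → 0`:

* the area of `M_d` in the disc of radius `r` about `c₀`, and also the area of the part formed by the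
  parameters with an attracting cycle, are `r ^ (2 d / (d - 1) + o(1))`;
* the inradius of the two sets, and the largest distance from a point of `M_d` in this disc to the
  complement of `M_d`, are `r ^ (d / (d - 1) + o(1))`;
* the largest area of the filled Julia set of `z ^ d + c`, `0 < |c - c₀| < r`, over all `c ∈ M_d` and
  over the `c` with an attracting cycle, is `r ^ (2 / (d - 1) + o(1))`.
-/

set_option autoImplicit false

open Set Filter Metric MeasureTheory Topology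

namespace Pool.Agent.Results.MP_af9036_an.ExactScaling

open Pool.Agent.H713R2 (IsExteriorMap)

/-- The polynomial `z ^ d + c`. -/
def f (d : ℕ) (c : ℂ) : ℂ → ℂ := fun z => z ^ d + c

/-- The Multibrot set `M_d`. -/
def M (d : ℕ) : Set ℂ := N62a1eb23.multibrotSet d

/-- The parameters `c` of the Multibrot set for which `z ^ d + c` has an attracting cycle. -/
def hyp (d : ℕ) : Set ℂ :=
  {c | c ∈ M d ∧ ∃ (m : ℕ) (z : ℂ), N62a1eb23.IsAttractingCycle (f d c) m z}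

/-- The filled Julia set of `z ^ d + c`. -/
def filledJulia (d : ℕ) (c : ℂ) : Set ℂ :=
  {z | ¬ Tendsto (fun n => (f d c)^[n] z) atTop (Bornology.cobounded ℂ)}

/-- `F r = r ^ (a + o(1))` as `r → 0`. -/
def Order (F : ℝ → ℝ) (a : ℝ) : Prop :=
  Tendsto (fun r : ℝ => Real.log (F r) / Real.log r) (𝓝[>] 0) (𝓝 a)

/-- The inradius of a set. -/
noncomputable def inradius (S : Set ℂ) : ℝ := sSup {ρ : ℝ | 0 ≤ ρ ∧ ∃ c : ℂ, ball c ρ ⊆ S}

/-- The largest distance to the complement of `M_d` of the points of `M_d` at distance less than `r`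
from `c₀`. -/
noncomputable def depth (d : ℕ) (c₀ : ℂ) (r : ℝ) : ℝ :=
  sSup {x : ℝ | ∃ c ∈ M d, ‖c - c₀‖ < r ∧ infDist c (M d)ᶜ = x}

/-- The largest area of the filled Julia set of `z ^ d + c` for `c ∈ A`, `0 < |c - c₀| < r`. -/
noncomputable def juliaArea (d : ℕ) (A : Set ℂ) (c₀ : ℂ) (r : ℝ) : ℝ :=
  sSup {x : ℝ | ∃ c ∈ A, 0 < ‖c - c₀‖ ∧ ‖c - c₀‖ < r ∧ (volume (filledJulia d c)).toReal = x}

/-- There are superattracting parameters and parameters outside `M_d` within `K |c - c₀| ^ σ` of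
`c`. -/
def Close (d : ℕ) (c₀ : ℂ) (K σ : ℝ) (c : ℂ) : Prop :=
  (∃ c' : ℂ, ‖c' - c‖ ≤ K * ‖c - c₀‖ ^ σ ∧ ∃ p : ℕ, 1 ≤ p ∧ (f d c')^[p] 0 = 0 ∧
    N62a1eb23.IsAttractingCycle (f d c') p 0) ∧
  ∃ c' : ℂ, ‖c' - c‖ ≤ K * ‖c - c₀‖ ^ σ ∧ c' ∉ M d

/-- The scaling of the Multibrot set at `c₀`. -/
def Scaling (d : ℕ) (c₀ : ℂ) : Prop :=
  Order (fun r => (volume (M d ∩ ball c₀ r)).toReal) (2 * d / (d - 1)) ∧
  Order (fun r => (volume (hyp d ∩ ball c₀ r)).toReal) (2 * d / (d - 1)) ∧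
  Order (fun r => inradius (M d ∩ ball c₀ r)) (d / (d - 1)) ∧
  Order (fun r => inradius (hyp d ∩ ball c₀ r)) (d / (d - 1)) ∧
  Order (depth d c₀) (d / (d - 1)) ∧
  Order (juliaArea d (M d) c₀) (2 / (d - 1)) ∧
  Order (juliaArea d (hyp d) c₀) (2 / (d - 1)) ∧
  ∀ σ : ℝ, 0 ≤ σ → σ < d / (d - 1) → ∃ K : ℝ, 0 < K ∧ ∀ c ∈ M d, c ≠ c₀ → Close d c₀ K σ c

/-- `c₀` lies in the Multibrot set and the critical value `c₀` has the Lyapunov exponent `χ > 0`. -/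
def Lyapunov (d : ℕ) (χ : ℝ) (c₀ : ℂ) : Prop :=
  0 < χ ∧ c₀ ∈ M d ∧
    Tendsto (fun n : ℕ => Real.log ‖deriv ((f d c₀)^[n]) c₀‖ / n) atTop (𝓝 χ)

/-- The Collet-Eckmann condition with constants, with a condition of slow recurrence of order `β`. -/
def ColletEckmann (d : ℕ) (C₁ lam C₂ β : ℝ) (c₀ : ℂ) : Prop :=
  c₀ ∈ M d ∧ (∀ n : ℕ, lam ^ n ≤ C₁ * ‖deriv ((f d c₀)^[n]) c₀‖) ∧
    ∀ n : ℕ, 1 ≤ C₂ * (‖(f d c₀)^[n] c₀‖ * ‖deriv ((f d c₀)^[n]) c₀‖ ^ β)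

theorem inradius_eq (S : Set ℂ) : inradius S = Pool.Agent.Y298.CA.inradius S := rfl

theorem isAtt_of_trap {g : ℂ → ℂ} (hg : Differentiable ℂ g) {ρ : ℝ} {n : ℕ} (hρ : 0 < ρ)
    (htrap : ∀ z ∈ closedBall (0 : ℂ) ρ, g^[n + 1] z ∈ ball (0 : ℂ) ρ) :
    ∃ x, N62a1eb23.IsAttractingCycle g (n + 1) x := by
  obtain ⟨x, -, h1, h2, -⟩ := Pool.Agent.Y620.EX.t_sink g 0 ρ n hg hρ htrap
  exact ⟨x, Nat.succ_pos n, h1, (hg.iterate (n + 1)) x, h2⟩

theorem sub_of_trap {g : ℂ → ℂ} {ρ : ℝ} {n : ℕ}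
    (htrap : ∀ z ∈ closedBall (0 : ℂ) ρ, g^[n + 1] z ∈ ball (0 : ℂ) ρ) {z : ℂ}
    (hz : z ∈ closedBall (0 : ℂ) ρ) : ¬ Tendsto (fun k => g^[k] z) atTop (Bornology.cobounded ℂ) := by
  intro hT
  have h3 : ∀ k : ℕ, g^[(n + 1) * k] z ∈ closedBall (0 : ℂ) ρ := by
    intro k
    induction k with
    | zero => exact hz
    | succ k ih =>
      have h4 := htrap _ ih
      rw [← Function.iterate_add_apply] at h4
      have h5 : n + 1 + (n + 1) * k = (n + 1) * (k + 1) := by ring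
      rw [h5] at h4
      exact ball_subset_closedBall h4
  have h4 : Tendsto (fun k : ℕ => (n + 1) * k) atTop atTop :=
    tendsto_id.const_mul_atTop' (Nat.succ_pos n)
  have h6 := tendsto_norm_cobounded_atTop.comp (hT.comp h4)
  obtain ⟨k, hk⟩ := (h6.eventually_gt_atTop ρ).exists
  have h5 := h3 k
  rw [mem_closedBall_zero_iff] at h5
  exact absurd hk (not_lt.mpr h5)

theorem three_mem (d : ℕ) (hd : 2 ≤ d) : (3 : ℂ) ∈ (M d)ᶜ := by
  intro h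
  have h1 := Pool.Agent.TH279.MD.norm_le_two hd h
  norm_num at h1

theorem M_le {d : ℕ} (hd : 2 ≤ d) {c : ℂ} (hc : c ∈ M d) : ‖c‖ ≤ 2 :=
  Pool.Agent.TH279.MD.norm_le_two hd hc

theorem lt_one_ev : ∀ᶠ r : ℝ in 𝓝[>] 0, r < 1 :=
  mem_nhdsWithin_of_mem_nhds (gt_mem_nhds (by norm_num : (0 : ℝ) < 1))

/-- absorbing constants -/
theorem absorb {K σ E ε : ℝ} (hε : 0 < ε) (hσ : E - ε / 2 ≤ σ) :
    0 ≤ K → ∀ᶠ r : ℝ in 𝓝[>] 0, K * r ^ σ ≤ r ^ (E - ε) := by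
  intro hK
  have hmem0 : ∀ᶠ r : ℝ in 𝓝[>] 0, 0 < r := self_mem_nhdsWithin
  filter_upwards [hmem0, lt_one_ev, Pool.Agent.Y298.CA.ev_const (C := K) (a := ε / 2)
    (by positivity)] with r hr0 hr1 hr2
  calc K * r ^ σ ≤ K * r ^ (E - ε / 2) := by
        gcongr K * ?_
        exact Real.rpow_le_rpow_of_exponent_ge hr0 hr1.le hσ
    _ = (K * r ^ (ε / 2)) * r ^ (E - ε) := by
        rw [mul_assoc, ← Real.rpow_add hr0]
        congr 2
        ring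
    _ ≤ 1 * r ^ (E - ε) := by gcongr
    _ = _ := one_mul _

theorem depth_order {d : ℕ} (hd : 2 ≤ d) {c₀ : ℂ}
    (hup : ∀ σ : ℝ, 0 ≤ σ → σ < d / (d - 1) → ∃ K : ℝ, 0 < K ∧
      ∀ c ∈ M d, c ≠ c₀ → Close d c₀ K σ c)
    (hlow : ∀ ε : ℝ, 0 < ε → ∀ᶠ r : ℝ in 𝓝[>] 0, ∃ (c' : ℂ) (η : ℝ), 0 < η ∧
      r ^ ((d : ℝ) / (d - 1) + ε) ≤ η ∧ ball c' η ⊆ M d ∩ ball c₀ r) :
    Order (depth d c₀) (d / (d - 1)) := by
  have hdR : (2 : ℝ) ≤ d := by exact_mod_cast hd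
  have hd1 : 0 < (d : ℝ) - 1 := by linarith
  have hE : 0 < (d : ℝ) / (d - 1) := by positivity
  have hmem0 : ∀ᶠ r : ℝ in 𝓝[>] 0, 0 < r := self_mem_nhdsWithin
  have hne : (M d)ᶜ.Nonempty := ⟨3, three_mem d hd⟩
  have hbdd : ∀ r : ℝ, BddAbove {x : ℝ | ∃ c ∈ M d, ‖c - c₀‖ < r ∧ infDist c (M d)ᶜ = x} := by
    intro r
    refine ⟨5, ?_⟩
    rintro x ⟨c, hc, -, rfl⟩
    have h1 := infDist_le_dist_of_mem (x := c) (three_mem d hd)
    have h2 : dist c 3 ≤ ‖c‖ + 3 := by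
      rw [dist_eq_norm]
      refine (norm_sub_le _ _).trans ?_
      norm_num
    have h3 := M_le hd hc
    linarith
  -- the distance of `c₀` to the complement is zero
  have hzero : infDist c₀ (M d)ᶜ ≤ 0 := by
    obtain ⟨K, hK, H⟩ := hup ((d : ℝ) / (d - 1) / 2) (by positivity) (by linarith)
    have h1 : Tendsto (fun s : ℝ => s + K * s ^ ((d : ℝ) / (d - 1) / 2)) (𝓝[>] 0) (𝓝 0) := by
      have h2 : Tendsto (fun s : ℝ => s + K * s ^ ((d : ℝ) / (d - 1) / 2)) (𝓝 0)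
          (𝓝 (0 + K * (0 : ℝ) ^ ((d : ℝ) / (d - 1) / 2))) :=
        tendsto_id.add ((Real.continuousAt_rpow_const 0 _ (Or.inr (by positivity))).tendsto.const_mul K)
      rw [Real.zero_rpow (by positivity), mul_zero, add_zero] at h2
      exact h2.mono_left nhdsWithin_le_nhds
    refine ge_of_tendsto h1 ?_
    filter_upwards [hmem0] with s hs
    have hpos : 0 ≤ K * s ^ ((d : ℝ) / (d - 1) / 2) := by positivity
    have hcs : ‖(c₀ + (s : ℂ)) - c₀‖ = s := by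
      rw [add_sub_cancel_left, Complex.norm_real, Real.norm_of_nonneg hs.le]
    by_cases hm : c₀ + (s : ℂ) ∈ M d
    · have hne' : c₀ + (s : ℂ) ≠ c₀ := by
        intro h
        rw [h, sub_self, norm_zero] at hcs
        linarith
      obtain ⟨-, c', h2, h3⟩ := H _ hm hne'
      rw [hcs] at h2
      refine (infDist_le_dist_of_mem (x := c₀) (show c' ∈ (M d)ᶜ from h3)).trans ?_
      rw [dist_eq_norm, norm_sub_rev]
      calc ‖c' - c₀‖ = ‖((c₀ + (s : ℂ)) - c₀) + (c' - (c₀ + (s : ℂ)))‖ := by congr 1; ring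
        _ ≤ ‖(c₀ + (s : ℂ)) - c₀‖ + ‖c' - (c₀ + (s : ℂ))‖ := norm_add_le _ _
        _ ≤ _ := by rw [hcs]; linarith
    · refine (infDist_le_dist_of_mem (x := c₀) (show c₀ + (s : ℂ) ∈ (M d)ᶜ from hm)).trans ?_
      rw [dist_eq_norm, norm_sub_rev, hcs]
      linarith
  refine Pool.Agent.Y298.CA.lim_of ?_ ?_
  · intro ε hε
    filter_upwards [hlow ε hε] with r ⟨c', η, h1, h2, h3⟩
    refine h2.trans ?_
    have hc' := h3 (mem_ball_self h1)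
    have h4 : η ≤ infDist c' (M d)ᶜ := by
      rw [le_infDist hne]
      intro y hy
      by_contra hcon
      rw [not_le, dist_comm] at hcon
      exact hy (h3 (mem_ball.mpr hcon)).1
    refine h4.trans (le_csSup (hbdd r) ⟨c', hc'.1, ?_, rfl⟩)
    have := hc'.2
    rwa [mem_ball, dist_eq_norm] at this
  · intro ε hε
    obtain ⟨K, hK, H⟩ := hup (max 0 ((d : ℝ) / (d - 1) - ε / 2)) (le_max_left _ _)
      (max_lt hE (by linarith))
    filter_upwards [hmem0, absorb (K := K) (E := (d : ℝ) / (d - 1)) hε (le_max_right 0 _) hK.le]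
      with r hr0 hr1
    refine Real.sSup_le ?_ (by positivity)
    rintro x ⟨c, hc, hcr, rfl⟩
    by_cases hcc : c = c₀
    · rw [hcc]
      exact hzero.trans (by positivity)
    · obtain ⟨-, c', h2, h3⟩ := H c hc hcc
      refine (infDist_le_dist_of_mem (x := c) (show c' ∈ (M d)ᶜ from h3)).trans ?_
      rw [dist_eq_norm, norm_sub_rev]
      refine h2.trans (le_trans ?_ hr1)
      have h4 : ‖c - c₀‖ ^ max 0 ((d : ℝ) / (d - 1) - ε / 2) ≤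
          r ^ max 0 ((d : ℝ) / (d - 1) - ε / 2) :=
        Real.rpow_le_rpow (norm_nonneg _) hcr.le (le_max_left _ _)
      gcongr

/-- the order of the areas of the filled Julia sets -/
theorem julia_order {d : ℕ} (hd : 2 ≤ d) {c₀ : ℂ} {A : Set ℂ} (hA : A ⊆ M d)
    (hup : ∀ t : ℝ, 0 ≤ t → t < 1 → ∃ K : ℝ, 0 < K ∧ ∀ c ∈ M d, c ≠ c₀ →
      volume (filledJulia d c) ≤ ENNReal.ofReal (K * ‖c - c₀‖ ^ (2 * t / ((d : ℝ) - 1))))
    (hlow : ∀ ε : ℝ, 0 < ε → ∀ᶠ r : ℝ in 𝓝[>] 0, ∃ c ∈ A, 0 < ‖c - c₀‖ ∧ ‖c - c₀‖ < r ∧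
      ENNReal.ofReal (r ^ (2 / ((d : ℝ) - 1) + ε)) ≤ volume (filledJulia d c)) :
    Order (juliaArea d A c₀) (2 / (d - 1)) := by
  have hdR : (2 : ℝ) ≤ d := by exact_mod_cast hd
  have hd1 : 0 < (d : ℝ) - 1 := by linarith
  have hmem0 : ∀ᶠ r : ℝ in 𝓝[>] 0, 0 < r := self_mem_nhdsWithin
  obtain ⟨K₀, hK₀, H₀⟩ := hup 0 le_rfl one_pos
  have hbdd : ∀ r : ℝ, BddAbove {x : ℝ | ∃ c ∈ A, 0 < ‖c - c₀‖ ∧ ‖c - c₀‖ < r ∧
      (volume (filledJulia d c)).toReal = x} := by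
    intro r
    refine ⟨K₀, ?_⟩
    rintro x ⟨c, hc, hc0, -, rfl⟩
    have h1 := H₀ c (hA hc) (by
      rintro rfl
      rw [sub_self, norm_zero] at hc0
      exact lt_irrefl _ hc0)
    rw [mul_zero, zero_div, Real.rpow_zero, mul_one] at h1
    exact ENNReal.toReal_le_of_le_ofReal hK₀.le h1
  refine Pool.Agent.Y298.CA.lim_of ?_ ?_
  · intro ε hε
    filter_upwards [hlow ε hε, hmem0] with r ⟨c, h1, h2, h3, h4⟩ hr0
    refine le_trans ?_ (le_csSup (hbdd r) ⟨c, h1, h2, h3, rfl⟩)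
    have hcc : c ≠ c₀ := by
      rintro rfl
      rw [sub_self, norm_zero] at h2
      exact lt_irrefl _ h2
    have hfin : volume (filledJulia d c) ≠ ⊤ :=
      ne_top_of_le_ne_top ENNReal.ofReal_ne_top (H₀ c (hA h1) hcc)
    have h5 := ENNReal.toReal_mono hfin h4
    rwa [ENNReal.toReal_ofReal (by positivity)] at h5
  · intro ε hε
    set t : ℝ := max 0 (1 - ε * ((d : ℝ) - 1) / 4) with ht
    have ht0 : 0 ≤ t := le_max_left _ _
    have ht1 : t < 1 := by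
      apply max_lt one_pos
      have : 0 < ε * ((d : ℝ) - 1) / 4 := by positivity
      linarith
    have hσ : 2 / ((d : ℝ) - 1) - ε / 2 ≤ 2 * t / ((d : ℝ) - 1) := by
      have h5 : 1 - ε * ((d : ℝ) - 1) / 4 ≤ t := le_max_right _ _
      rw [le_div_iff₀ hd1]
      have h6 : (2 / ((d : ℝ) - 1) - ε / 2) * ((d : ℝ) - 1) = 2 * (1 - ε * ((d : ℝ) - 1) / 4) := by
        field_simp
        ring
      rw [h6]
      linarith
    obtain ⟨K, hK, H⟩ := hup t ht0 ht1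
    filter_upwards [hmem0, absorb hε hσ hK.le] with r hr0 hr1
    refine Real.sSup_le ?_ (by positivity)
    rintro x ⟨c, hc, hc0, hcr, rfl⟩
    have hcc : c ≠ c₀ := by
      rintro rfl
      rw [sub_self, norm_zero] at hc0
      exact lt_irrefl _ hc0
    refine (ENNReal.toReal_le_of_le_ofReal (by positivity) (H c (hA hc) hcc)).trans ?_
    refine le_trans ?_ hr1
    have h4 : ‖c - c₀‖ ^ (2 * t / ((d : ℝ) - 1)) ≤ r ^ (2 * t / ((d : ℝ) - 1)) :=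
      Real.rpow_le_rpow (norm_nonneg _) hcr.le (by positivity)
    gcongr

/-- hyperbolic parameters with large filled Julia sets -/
theorem julia_low {d : ℕ} (hd : 2 ≤ d) {χ : ℝ} {c₀ : ℂ} (h : Pool.Agent.Y298.CA.Lyap d χ c₀)
    {ε : ℝ} (hε : 0 < ε) : ∀ᶠ r : ℝ in 𝓝[>] 0, ∃ c ∈ hyp d, 0 < ‖c - c₀‖ ∧ ‖c - c₀‖ < r ∧
      ENNReal.ofReal (r ^ (2 / ((d : ℝ) - 1) + ε)) ≤ volume (filledJulia d c) := by
  have hdR : (2 : ℝ) ≤ d := by exact_mod_cast hd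
  have hd1 : 0 < (d : ℝ) - 1 := by linarith
  obtain ⟨C, r₀, hC, hr₀, H⟩ := Pool.Agent.Y298.EX.low_all d χ c₀ hd h (ε / 2) (by positivity)
  have hC0 : 0 < C := by linarith
  set a : ℝ := 1 / ((d : ℝ) - 1) + ε / 2 / 2 with ha
  have ha0 : 0 < a := by positivity
  have hE1 : 1 ≤ (d : ℝ) / ((d : ℝ) - 1) + ε / 2 := by
    have : 1 ≤ (d : ℝ) / ((d : ℝ) - 1) := by rw [le_div_iff₀ hd1]; linarith
    linarith
  have hmem0 : ∀ᶠ r : ℝ in 𝓝[>] 0, 0 < r := self_mem_nhdsWithin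
  have h1 : ∀ᶠ r : ℝ in 𝓝[>] 0, r < r₀ := mem_nhdsWithin_of_mem_nhds (gt_mem_nhds hr₀)
  filter_upwards [hmem0, h1, lt_one_ev,
    Pool.Agent.Y298.CA.ev_const (C := (4 * C) ^ (2 * a)) (by positivity : 0 < ε / 2)]
    with r hr0 hr1 hrone hr2
  set r' : ℝ := r / (4 * C) with hr'
  have hr'0 : 0 < r' := by positivity
  have hr'r : r' ≤ r / 4 := by
    rw [hr', div_le_div_iff₀ (by positivity) (by norm_num)]
    nlinarith
  have hr'1 : r' < 1 := by linarith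
  obtain ⟨t₁, n, ht₁, H1⟩ := H r' hr'0 (by linarith) (Pool.Agent.Y272.GA.ee d c₀)
    (by rw [sub_self, norm_zero]; exact hr'0.le) 0
    (by rw [Pool.Agent.Y272.GA.dF_ee, zero_pow (by omega), mul_zero])
    (by rw [norm_zero]; exact zero_le_one)
  have hCr : C * r' = r / 4 := by
    rw [hr']
    field_simp
  rw [hCr] at ht₁
  -- a parameter different from `c₀`
  obtain ⟨s, hs, hs0⟩ : ∃ s : ℂ, ‖s‖ ≤ r' ^ ((d : ℝ) / ((d : ℝ) - 1) + ε / 2) ∧ t₁ + s ≠ 0 := by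
    have hp : 0 < r' ^ ((d : ℝ) / ((d : ℝ) - 1) + ε / 2) := Real.rpow_pos_of_pos hr'0 _
    by_cases ht : t₁ = 0
    · refine ⟨((r' ^ ((d : ℝ) / ((d : ℝ) - 1) + ε / 2) : ℝ) : ℂ), ?_, ?_⟩
      · rw [Complex.norm_real, Real.norm_of_nonneg hp.le]
      · rw [ht, zero_add, Complex.ofReal_ne_zero]
        exact hp.ne'
    · exact ⟨0, by rw [norm_zero]; exact hp.le, by rwa [add_zero]⟩
  have hs1 : ‖s‖ ≤ r / 4 := by
    refine hs.trans (le_trans ?_ hr'r)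
    calc r' ^ ((d : ℝ) / ((d : ℝ) - 1) + ε / 2) ≤ r' ^ (1 : ℝ) :=
          Real.rpow_le_rpow_of_exponent_ge hr'0 hr'1.le hE1
      _ = r' := Real.rpow_one _
  have hee : Pool.Agent.Y272.GA.ee d (c₀ + (t₁ + s)) -
      (Pool.Agent.Y272.GA.ee d c₀ + (Pi.single 0 t₁ : Fin (d + 1) → ℂ)) =
      (Pi.single 0 s : Fin (d + 1) → ℂ) := by
    unfold Pool.Agent.Y272.GA.ee
    rw [← Pi.single_add, ← Pi.single_sub]
    congr 1
    ring
  have H2 := H1 (Pool.Agent.Y272.GA.ee d (c₀ + (t₁ + s))) (by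
    rw [hee, Pi.norm_single]
    exact hs)
  set ρ : ℝ := r' ^ a with hρ
  have hρ0 : 0 < ρ := Real.rpow_pos_of_pos hr'0 _
  have hfun : Pool.Agent.Y272.GA.FF d (Pool.Agent.Y272.GA.ee d (c₀ + (t₁ + s))) =
      f d (c₀ + (t₁ + s)) := by
    rw [Pool.Agent.Y272.GA.FF_ee']
    rfl
  rw [hfun] at H2
  have hdiff : Differentiable ℂ (f d (c₀ + (t₁ + s))) := by
    unfold f
    fun_prop
  have hsub : closedBall (0 : ℂ) ρ ⊆ filledJulia d (c₀ + (t₁ + s)) := fun z hz => sub_of_trap H2 hz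
  refine ⟨c₀ + (t₁ + s), ⟨hsub (mem_closedBall_self hρ0.le), n + 1,
    isAtt_of_trap hdiff hρ0 H2⟩, ?_, ?_, ?_⟩
  · rw [add_sub_cancel_left]
    exact norm_pos_iff.mpr hs0
  · rw [add_sub_cancel_left]
    exact (norm_add_le _ _).trans_lt (by linarith)
  · refine le_trans ?_ (measure_mono hsub)
    rw [Pool.Agent.Y298.CA.vol_cb' _ hρ0.le]
    apply ENNReal.ofReal_le_ofReal
    have h3 : ρ ^ 2 = (1 / (4 * C) ^ (2 * a)) * r ^ (2 * a) := by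
      rw [hρ, ← Real.rpow_natCast, ← Real.rpow_mul hr'0.le, hr', Real.div_rpow hr0.le (by positivity)]
      push_cast
      rw [mul_comm a 2]
      ring
    have h4 : r ^ (2 / ((d : ℝ) - 1) + ε) = r ^ (2 * a) * r ^ (ε / 2) := by
      rw [← Real.rpow_add hr0]
      congr 1
      rw [ha]
      field_simp
      ring
    have h5 : r ^ (ε / 2) ≤ 1 / (4 * C) ^ (2 * a) := by
      rw [le_div_iff₀ (by positivity)]
      linarith
    have h6 := Real.pi_gt_three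
    have h7 : 0 < ρ ^ 2 := by positivity
    calc r ^ (2 / ((d : ℝ) - 1) + ε) = r ^ (2 * a) * r ^ (ε / 2) := h4
      _ ≤ r ^ (2 * a) * (1 / (4 * C) ^ (2 * a)) := by gcongr
      _ = ρ ^ 2 := by rw [h3]; ring
      _ ≤ Real.pi * ρ ^ 2 := by nlinarith

/-- the scaling at a parameter with a Lyapunov exponent -/
theorem scaling {d : ℕ} (hd : 2 ≤ d) {χ : ℝ} {c₀ : ℂ} (h : Lyapunov d χ c₀) : Scaling d c₀ := by
  have hdR : (2 : ℝ) ≤ d := by exact_mod_cast hd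
  have hd1 : 0 < (d : ℝ) - 1 := by linarith
  have hL : Pool.Agent.Y298.CA.Lyap d χ c₀ := h
  have S := Pool.Agent.Y298.CA.scal_all hd hL
  have hdens : ∀ σ : ℝ, 0 ≤ σ → σ < d / (d - 1) → ∃ K : ℝ, 0 < K ∧
      ∀ c ∈ M d, c ≠ c₀ → Close d c₀ K σ c := by
    intro σ hσ0 hσ
    obtain ⟨K, hK, H⟩ := S.dens σ hσ0 hσ
    exact ⟨K, hK, fun c hc hcc => H c hc hcc⟩
  have hjup : ∀ t : ℝ, 0 ≤ t → t < 1 → ∃ K : ℝ, 0 < K ∧ ∀ c ∈ M d, c ≠ c₀ →
      volume (filledJulia d c) ≤ ENNReal.ofReal (K * ‖c - c₀‖ ^ (2 * t / ((d : ℝ) - 1))) := by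
    intro t ht0 ht1
    have hb0 : 0 < (1 - t) / 2 := by linarith
    have hb1 : t * (1 + (1 - t) / 2) < 1 := by nlinarith
    obtain ⟨⟨C₁, lam, hc⟩, -⟩ := Pool.Agent.Y674.CA.lya d χ c₀ hd hL
    obtain ⟨C₂, hC₂, hrec⟩ := Pool.Agent.Y298.CA.rec_of_lya Pool.Agent.Y674.CA.lya hd hL hb0
    obtain ⟨C, hC, H⟩ := Pool.Agent.Y298.SH.CD.upper hd C₁ lam hC₂ hb0.le ht0 hb1
    exact ⟨C, hC, fun c hcM hcc => (H c₀ hc hrec c hcM hcc).1⟩
  have hHM : hyp d ⊆ M d := fun c hc => hc.1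
  refine ⟨S.areaM, S.areaH, S.inM, S.inH, ?_, ?_, ?_, hdens⟩
  · refine depth_order hd hdens fun ε hε => ?_
    obtain ⟨r₀, hr₀, -, H⟩ := Pool.Agent.Y298.CA.lower Pool.Agent.Y287.CA.sch
      Pool.Agent.Y287.CA.att Pool.Agent.Y100.CA.two Pool.Agent.Y674.CA.lya
      Pool.Agent.Y434.CA.pa hd hL hε
    have hmem0 : ∀ᶠ r : ℝ in 𝓝[>] 0, 0 < r := self_mem_nhdsWithin
    have h1 : ∀ᶠ r : ℝ in 𝓝[>] 0, r < r₀ := mem_nhdsWithin_of_mem_nhds (gt_mem_nhds hr₀)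
    filter_upwards [hmem0, h1] with r hr0 hr1
    obtain ⟨c', η, h2, h3, h4, h5⟩ := H r hr0 hr1.le
    exact ⟨c', η, h2, h3, fun c hc' => ⟨(h5 c hc').1, h4 hc'⟩⟩
  · exact julia_order hd subset_rfl hjup fun ε hε => (julia_low hd hL hε).mono
      fun r ⟨c, h1, h2⟩ => ⟨c, hHM h1, h2⟩
  · exact julia_order hd hHM hjup fun ε hε => julia_low hd hL hε

/-- The exact scaling of the Multibrot sets (and of their hyperbolic parts) at every parameter whose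
critical value has a Lyapunov exponent, in particular at harmonic-almost every boundary point; and
uniform upper bounds at all Collet-Eckmann parameters. -/
theorem result (d : ℕ) (hd : 2 ≤ d) :
    (∀ (χ : ℝ) (c₀ : ℂ), Lyapunov d χ c₀ → Scaling d c₀) ∧
    (∃ ψ : ℂ → ℂ, IsExteriorMap (M d) ψ) ∧
    (∀ ψ : ℂ → ℂ, IsExteriorMap (M d) ψ → ∀ᵐ θ : ℝ, ∃ c₀ ∈ frontier (M d),
      Tendsto (fun r : ℝ => ψ (r * Complex.exp (θ * Complex.I))) (𝓝[>] 1) (𝓝 c₀) ∧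
      Lyapunov d (Real.log d) c₀ ∧ Scaling d c₀) ∧
    ∀ C₁ lam C₂ β t : ℝ, 1 ≤ C₁ → 1 < lam → 0 < C₂ → 0 ≤ β → 0 ≤ t → t * (1 + β) < 1 →
      ∃ K : ℝ, 0 < K ∧ ∀ c₀ : ℂ, ColletEckmann d C₁ lam C₂ β c₀ →
        (∀ r : ℝ, 0 < r → volume (M d ∩ closedBall c₀ r) ≤
          ENNReal.ofReal (K * r ^ (t * (2 * d / (d - 1))))) ∧
        ∀ c ∈ M d, c ≠ c₀ → Close d c₀ K (t * (d / (d - 1))) c ∧
          volume (filledJulia d c) ≤ ENNReal.ofReal (K * ‖c - c₀‖ ^ (t * (2 / ((d : ℝ) - 1)))) := by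
  have hdR : (2 : ℝ) ≤ d := by exact_mod_cast hd
  have hd1 : 0 < (d : ℝ) - 1 := by linarith
  refine ⟨fun χ c₀ h => scaling hd h, ?_, ?_, ?_⟩
  · obtain ⟨β, hβ⟩ := Pool.Agent.H713R2.exists_beta (d := d) hd
    exact ⟨_, Pool.Agent.H713R2.exteriorMap_of_beta hβ⟩
  · obtain ⟨β, hβ⟩ := Pool.Agent.H713R2.exists_beta (d := d) hd
    intro ψ hψ
    filter_upwards [Pool.Agent.Y272.TY.ae_neg' (Pool.Agent.Y272.TY.typical_all hd hβ)] with θ hθ
    obtain ⟨c₀, A, R, h⟩ := hθ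
    have h1 : Lyapunov d (Real.log d) c₀ := Pool.Agent.Y298.CA.lyap_of_typ hd hβ h
    exact ⟨c₀, h.frontier hd hβ, h.tendsto_psi hβ hψ, h1, scaling hd h1⟩
  · intro C₁ lam C₂ β t hC₁ hlam hC₂ hβ ht0 ht
    obtain ⟨K₁, hK₁, H₁⟩ := Pool.Agent.Y298.CA.area_final hd C₁ lam hC₂ hβ ht0 ht
    obtain ⟨K₂, hK₂, H₂⟩ := Pool.Agent.Y298.SH.CD.upper hd C₁ lam hC₂ hβ ht0 ht
    refine ⟨K₁ + K₂, by positivity, fun c₀ hc => ?_⟩
    have hce := Pool.Agent.Y298.SH.CD.cep_of_mem hd hC₁ hlam hc.1 hc.2.1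
    refine ⟨fun r hr => ?_, fun c hcM hcc => ?_⟩
    · refine (H₁ c₀ hce hc.2.2 r hr).trans (ENNReal.ofReal_le_ofReal ?_)
      have : 0 ≤ r ^ (t * (2 * (d : ℝ) / ((d : ℝ) - 1))) := by positivity
      nlinarith
    · obtain ⟨h1, ⟨c', h2, h3⟩, ⟨c'', h4, h5⟩, -⟩ := H₂ c₀ hce hc.2.2 c hcM hcc
      have e1 : 2 * t / ((d : ℝ) - 1) = t * (2 / ((d : ℝ) - 1)) := by ring
      have e2 : d * t / ((d : ℝ) - 1) = t * (d / ((d : ℝ) - 1)) := by ring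
      rw [e1] at h1
      rw [e2] at h2 h4
      have p1 : 0 ≤ ‖c - c₀‖ ^ (t * (2 / ((d : ℝ) - 1))) := by positivity
      have p2 : 0 ≤ ‖c - c₀‖ ^ (t * (d / ((d : ℝ) - 1))) := by positivity
      refine ⟨⟨⟨c', h2.trans ?_, h3⟩, c'', h4.trans ?_, h5⟩, h1.trans (ENNReal.ofReal_le_ofReal ?_)⟩
      · nlinarith
      · nlinarith
      · nlinarith

end Pool.Agent.Results.MP_af9036_an.ExactScaling
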