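import Mathlib
import Pool.Prelude.Def_F_c31e40fa
import Pool.Agent.TH363.QI.Cor

/-!
# The distance to the hyperbolic parameters in terms of the expansion of the critical orbit during a
finite time, with constants that do not depend on the degree

Let `z_j` be the orbit of the critical value of `z ^ n + c`, with `c` in the Multibrot set, and `P_j`
the derivative of the `j`-th iterate at the critical value.

(1) If `n |z_j| ^ (n - 1) ≥ lam > 2` for all `j < k` then there is a hyperbolic parameter `c'` with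
`|c' - c| ≤ C |z_j| / (n |P_j|)` for all `j ≤ k`; in particular `|c' - c| ≤ 2 C / (n lam ^ k)`.

(2) If `∑_{1 ≤ i ≤ k} 1 / |P_i| ≤ θ < 1` then the same holds up to the factor `1 + log (k + 1)`.

The constants depend only on `lam` or `θ`: neither on the degree `n` nor on `c` and `k`, and nothing is
assumed about the critical orbit after the time `k`.
-/

set_option autoImplicit false

open Finset

namespace Pool.Agent.Results.MP_af9036_an.ExpandingTime

/-- The map `z ↦ z ^ n + c`. -/
def f (n : ℕ) (c : ℂ) : ℂ → ℂ := fun z => z ^ n + c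

/-- The parameters `c` for which `z ^ n + c` has an attracting cycle. -/
def hyp (n : ℕ) : Set ℂ := {c | ∃ m z, N62a1eb23.IsAttractingCycle (f n c) m z}

/-- The orbit of the critical value: `z_j` is the `j`-th iterate of `c`. -/
def orbit (n : ℕ) (c : ℂ) (j : ℕ) : ℂ := (f n c)^[j] c

/-- The derivative `P_j` of the `j`-th iterate at the critical value. -/
noncomputable def P (n : ℕ) (c : ℂ) (j : ℕ) : ℂ := deriv (f n c)^[j] c

/-- The distance to the hyperbolic parameters, in terms of the first `k` points of the orbit of the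
critical value, uniformly in the degree. -/
theorem result :
    -- (1) critical orbits which are expanding, by a factor `lam > 2`, during the time `k`
    (∀ lam : ℝ, 2 < lam → ∃ C : ℝ, 0 < C ∧ ∀ n : ℕ, 2 ≤ n →
      ∀ c ∈ N62a1eb23.multibrotSet n, ∀ k : ℕ, (∀ j < k, lam ≤ n * ‖orbit n c j‖ ^ (n - 1)) →
        ∃ c' ∈ hyp n, (∀ j ≤ k, n * ‖P n c j‖ * ‖c' - c‖ ≤ C * ‖orbit n c j‖) ∧
          n * lam ^ k * ‖c' - c‖ ≤ 2 * C) ∧
    -- (2) small sums of inverse derivatives up to the time `k`
    (∀ θ : ℝ, θ < 1 → ∃ C : ℝ, 0 < C ∧ ∀ n : ℕ, 2 ≤ n →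
      ∀ c ∈ N62a1eb23.multibrotSet n, ∀ k : ℕ, ∑ i ∈ range k, 1 / ‖P n c (i + 1)‖ ≤ θ →
        ∃ c' ∈ hyp n, ∀ j ≤ k,
          n * ‖P n c j‖ * ‖c' - c‖ ≤ C * (1 + Real.log (k + 1)) * ‖orbit n c j‖) := by
  have hP : ∀ n c j, P n c j = Pool.Agent.W746.LD.P n c c j := fun n c j =>
    (Pool.Agent.W746.LD.hasDerivAt_orb c j).deriv
  constructor
  · intro lam hlam
    obtain ⟨C, hC, H⟩ := Pool.Agent.TH363.QI.dist_expanding hlam
    refine ⟨C, hC, ?_⟩
    intro n hn c hc k hk
    obtain ⟨c', h1, h2⟩ := H n hn c hc k hk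
    have h3 : ∀ j ≤ k, n * ‖P n c j‖ * ‖c' - c‖ ≤ C * ‖orbit n c j‖ := by
      intro j hj
      rw [hP]
      exact h2 j hj
    refine ⟨c', h1, h3, ?_⟩
    have h4 : ∀ j ≤ k, lam ^ j ≤ ‖P n c j‖ := by
      intro j
      induction j with
      | zero =>
        intro _
        rw [hP]
        simp [Pool.Agent.W746.LD.P]
      | succ j ih =>
        intro hj
        have h5 := ih (by omega)
        have h6 := hk j (by omega)
        have h7 : ‖P n c (j + 1)‖ = ‖P n c j‖ * (n * ‖orbit n c j‖ ^ (n - 1)) := by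
          rw [hP, hP]
          unfold Pool.Agent.W746.LD.P
          rw [prod_range_succ, norm_mul, norm_mul, norm_pow, Complex.norm_natCast]
          rfl
        rw [h7, pow_succ]
        gcongr
    have h5 : ‖orbit n c k‖ ≤ 2 := by
      have h6 := (Pool.Agent.H712R2.mem_multibrot_iff hn c).mp hc (k + 1)
      have h7 : Pool.Agent.H712R2.P n (k + 1) c = orbit n c k := by
        have : Pool.Agent.H712R2.P n (k + 1) c = (f n c)^[k + 1] 0 := rfl
        rw [this, Function.iterate_succ_apply]
        unfold orbit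
        congr 1
        unfold f
        rw [zero_pow (by omega), zero_add]
      rwa [h7] at h6
    have h6 := h4 k le_rfl
    calc n * lam ^ k * ‖c' - c‖ ≤ n * ‖P n c k‖ * ‖c' - c‖ := by gcongr
      _ ≤ C * ‖orbit n c k‖ := h3 k le_rfl
      _ ≤ C * 2 := by gcongr
      _ = 2 * C := by ring
  · intro θ hθ
    obtain ⟨C, hC, H⟩ := Pool.Agent.TH363.QI.dist_summable hθ
    refine ⟨C, hC, ?_⟩
    intro n hn c hc k hk
    simp only [hP] at hk
    obtain ⟨c', h1, h2⟩ := H n hn c hc k hk
    refine ⟨c', h1, ?_⟩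
    intro j hj
    rw [hP]
    exact h2 j hj

end Pool.Agent.Results.MP_af9036_an.ExpandingTime
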